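import Mathlib.Analysis.Complex.Basic
import Mathlib.Analysis.Complex.Polynomial.Basic
import Mathlib.Analysis.Convex.Combination
import Mathlib.Algebra.Polynomial.Derivative
import Mathlib.Algebra.Polynomial.Splits
import Mathlib.Analysis.SpecialFunctions.Complex.Log
import Mathlib.Tactic

/-!
The shadow of the polynomial `(z ^ 2 - 1) * (z ^ 2 + 4)`, whose roots are the vertices of a
rhombus that is not a square, lies in the union of the two coordinate axes. Hence it has empty
interior and is not the closure of a nonempty open set.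
-/

namespace Pool.Agent.Results.MP_424c76_an.RhombusShadow

open Polynomial

/-- The set of complex roots of a polynomial. -/
def rootsOf (P : ℂ[X]) : Set ℂ := {z | P.eval z = 0}

/-- The roots of `P` are in convex position: there are `deg P` distinct roots, and none of them
lies in the convex hull of the others. -/
def ConvexPosition (P : ℂ[X]) : Prop :=
  (rootsOf P).ncard = P.natDegree ∧
    ∀ z ∈ rootsOf P, z ∉ convexHull ℝ (rootsOf P \ {z})

/-- The roots of `P` are the vertices of a regular polygon with `deg P` vertices. -/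
def RegularPolygon (P : ℂ[X]) : Prop :=
  ∃ c r : ℂ, r ≠ 0 ∧
    rootsOf P = {z | ∃ k : ℕ, z = c + r * Complex.exp (2 * Real.pi * Complex.I * k / P.natDegree)}

/-- The shadow of `P`: the closure of the set of all zeros of all the derivatives of order
`m ≤ n * deg P` of the powers `P ^ n`, `n ≥ 1`. -/
def shadow (P : ℂ[X]) : Set ℂ :=
  closure {z | ∃ n m : ℕ, 1 ≤ n ∧ m ≤ n * P.natDegree ∧ (derivative^[m] (P ^ n)).eval z = 0}

/-- Polynomials of the form `z ^ e * g (z ^ 2)` with `e ∈ {0, 1}` and `g` having only real
zeros. -/
def Good (f : ℂ[X]) : Prop :=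
  ∃ (e : ℕ) (g : ℂ[X]), e ≤ 1 ∧ (∀ w, g.eval w = 0 → w.im = 0) ∧ f = X ^ e * g.comp (X ^ 2)

theorem im_sum_inv (s : Multiset ℂ) (hs : ∀ y ∈ s, y.im = 0) (w : ℂ) (hw : w.im ≠ 0) :
    (s.map fun y => 1 / (w - y)).sum.im * w.im ≤ 0 ∧
      (s ≠ 0 → (s.map fun y => 1 / (w - y)).sum.im * w.im < 0) := by
  induction s using Multiset.induction_on with
  | empty => simp
  | cons a s ih =>
    have ih' := ih (fun y hy => hs y (Multiset.mem_cons_of_mem hy))
    have ha : a.im = 0 := hs a (Multiset.mem_cons_self a s)
    have hne : w - a ≠ 0 := by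
      intro h
      have := congrArg Complex.im h
      simp [ha] at this
      exact hw this
    have hpos : 0 < Complex.normSq (w - a) := Complex.normSq_pos.2 hne
    have h1 : (1 / (w - a)).im * w.im < 0 := by
      rw [one_div, Complex.inv_im, Complex.sub_im, ha, sub_zero, div_mul_eq_mul_div]
      apply div_neg_of_neg_of_pos _ hpos
      have : 0 < w.im * w.im := mul_self_pos.2 hw
      linarith
    rw [Multiset.map_cons, Multiset.sum_cons, Complex.add_im, add_mul]
    constructor
    · linarith [ih'.1]
    · intro _
      linarith [ih'.1]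

/-- `e * g + 2 * y * g'` has only real zeros if `g` does, unless it vanishes identically. -/
theorem real_zeros (e : ℕ) (g : ℂ[X]) (hg : ∀ w, g.eval w = 0 → w.im = 0)
    (h0 : (e : ℂ[X]) * g + 2 * X * derivative g ≠ 0) (w : ℂ)
    (hw : ((e : ℂ[X]) * g + 2 * X * derivative g).eval w = 0) : w.im = 0 := by
  by_contra him
  have hgw : g.eval w ≠ 0 := fun h => him (hg w h)
  have hg0 : g ≠ 0 := by
    rintro rfl
    simp at hgw
  have hw0 : w ≠ 0 := by
    rintro rfl
    simp at him
  have hroots : ∀ y ∈ g.roots, y.im = 0 := by
    intro y hy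
    exact hg y (by simpa using (mem_roots hg0).1 hy)
  have hsum := (IsAlgClosed.splits g).eval_derivative_div_eval_of_ne_zero hgw
  have himsum := im_sum_inv g.roots hroots w him
  rw [← hsum] at himsum
  have hev : (e : ℂ) * g.eval w + 2 * w * (derivative g).eval w = 0 := by
    simpa using hw
  have heq : (e : ℂ) / w + 2 * ((derivative g).eval w / g.eval w) = 0 := by
    field_simp
    linear_combination hev
  have hew : ((e : ℂ) / w).im * w.im ≤ 0 ∧ (e ≠ 0 → ((e : ℂ) / w).im * w.im < 0) := by
    have hpos : 0 < Complex.normSq w := Complex.normSq_pos.2 hw0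
    have h1 : ((e : ℂ) / w).im * w.im = -((e : ℝ) * (w.im * w.im) / Complex.normSq w) := by
      rw [Complex.div_im]
      simp
      ring
    have hsq : 0 < w.im * w.im := mul_self_pos.2 him
    constructor
    · rw [h1]
      have : 0 ≤ (e : ℝ) * (w.im * w.im) / Complex.normSq w := by positivity
      linarith
    · intro he
      rw [h1]
      have : (0 : ℝ) < e := by exact_mod_cast Nat.pos_of_ne_zero he
      have : 0 < (e : ℝ) * (w.im * w.im) / Complex.normSq w := by positivity
      linarith
  have him0 : ((e : ℂ) / w).im * w.im + 2 * (((derivative g).eval w / g.eval w).im * w.im) = 0 := by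
    have := congrArg Complex.im heq
    rw [Complex.add_im] at this
    have h2 : (2 * ((derivative g).eval w / g.eval w)).im =
        2 * ((derivative g).eval w / g.eval w).im := by
      simp
    rw [h2, Complex.zero_im] at this
    linear_combination w.im * this
  have he : e = 0 := by
    by_contra hne
    linarith [hew.2 hne, himsum.1]
  have hr : g.roots = 0 := by
    by_contra hne
    linarith [hew.1, himsum.2 hne]
  apply h0
  have hdeg : g.natDegree = 0 := by
    have := (IsAlgClosed.splits g).natDegree_eq_card_roots
    rw [this, hr]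
    simp
  rw [he, derivative_eq_zero.2 hdeg]
  simp

theorem Good.deriv_good {f : ℂ[X]} (hf : Good f) (h0 : derivative f ≠ 0) :
    Good (derivative f) := by
  obtain ⟨e, g, he, hg, rfl⟩ := hf
  have hd : derivative (X ^ e * g.comp (X ^ 2)) =
      X ^ (1 - e) * ((e : ℂ[X]) * g + 2 * (if e = 0 then 1 else X) * derivative g).comp
        (X ^ 2) := by
    interval_cases e
    · simp [derivative_comp]
      ring
    · simp [derivative_comp]
      ring
  rw [hd]
  refine ⟨1 - e, _, by omega, ?_, rfl⟩
  interval_cases e
  · intro w hw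
    have h0' : derivative g ≠ 0 := by
      intro h
      apply h0
      rw [hd, h]
      simp
    by_contra him
    have hw' : (derivative g).eval w = 0 := by simpa using hw
    refine him (real_zeros 0 g hg ?_ w ?_)
    · simp [h0']
    · simp [hw']
  · intro w hw
    refine real_zeros 1 g hg ?_ w (by simpa using hw)
    intro h
    apply h0
    rw [hd]
    simp only [one_ne_zero, if_false]
    rw [h]
    simp

theorem good_iterate {f : ℂ[X]} (hf : Good f) (m : ℕ) (hm : m ≤ f.natDegree) (h0 : f ≠ 0) :
    Good (derivative^[m] f) ∧ (derivative^[m] f) ≠ 0 ∧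
      (derivative^[m] f).natDegree = f.natDegree - m := by
  induction m with
  | zero => exact ⟨hf, h0, rfl⟩
  | succ m ih =>
    obtain ⟨h1, h2, h3⟩ := ih (by omega)
    rw [Function.iterate_succ_apply']
    have hne : derivative (derivative^[m] f) ≠ 0 := by
      rw [derivative_ne_zero, h3]
      omega
    refine ⟨h1.deriv_good hne, hne, ?_⟩
    rw [natDegree_derivative, h3]
    omega

theorem Good.zero_mem {f : ℂ[X]} (hf : Good f) {z : ℂ} (hz : f.eval z = 0) : z.re * z.im = 0 := by
  obtain ⟨e, g, he, hg, rfl⟩ := hf
  rw [eval_mul, eval_pow, eval_X, mul_eq_zero] at hz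
  rcases hz with hz | hz
  · have : z = 0 := by
      by_contra hne
      exact (pow_ne_zero e hne) hz
    rw [this]
    simp
  · rw [eval_comp, eval_pow, eval_X] at hz
    have := hg _ hz
    rw [sq, Complex.mul_im] at this
    linarith

/-- The rhombus polynomial. -/
noncomputable def rhombus : ℂ[X] := (X ^ 2 - 1) * (X ^ 2 + 4)

theorem rhombus_natDegree : rhombus.natDegree = 4 := by
  unfold rhombus
  have : (X ^ 2 - 1 : ℂ[X]) * (X ^ 2 + 4) = X ^ 4 + 3 * X ^ 2 - 4 := by ring
  rw [this]
  compute_degree!

theorem rhombus_ne_zero : rhombus ≠ 0 := by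
  intro h
  have := rhombus_natDegree
  rw [h] at this
  simp at this

theorem good_pow (n : ℕ) : Good (rhombus ^ n) := by
  refine ⟨0, ((X - 1) * (X + 4)) ^ n, by omega, ?_, ?_⟩
  · intro w hw
    simp only [eval_pow, eval_mul, eval_sub, eval_X, eval_one, eval_add] at hw
    have h2 : (w - 1) * (w + eval w 4) = 0 := by
      by_contra hne
      exact pow_ne_zero n hne hw
    have h4 : eval w (4 : ℂ[X]) = 4 := by simp
    rw [h4] at h2
    rcases mul_eq_zero.1 h2 with h | h
    · have := congrArg Complex.im h
      simpa using this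
    · have := congrArg Complex.im h
      simpa using this
  · simp [rhombus]

theorem shadow_subset : shadow rhombus ⊆ {z : ℂ | z.re * z.im = 0} := by
  apply closure_minimal
  · rintro z ⟨n, m, hn, hm, hz⟩
    have h0 : rhombus ^ n ≠ 0 := pow_ne_zero n rhombus_ne_zero
    have hdeg : (rhombus ^ n).natDegree = n * rhombus.natDegree := natDegree_pow _ _
    exact (good_iterate (good_pow n) m (by rw [hdeg]; exact hm) h0).1.zero_mem hz
  · exact isClosed_eq (Complex.continuous_re.mul Complex.continuous_im) continuous_const

theorem interior_shadow : interior (shadow rhombus) = ∅ := by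
  rw [Set.eq_empty_iff_forall_notMem]
  intro z hz
  rw [mem_interior_iff_mem_nhds, Metric.mem_nhds_iff] at hz
  obtain ⟨ε, hε, hb⟩ := hz
  have key : ∀ a b : ℝ, |a| < ε / 2 → |b| < ε / 2 → (z.re + a) * (z.im + b) = 0 := by
    intro a b ha hb'
    have hmem : (z + ⟨a, b⟩ : ℂ) ∈ Metric.ball z ε := by
      rw [Metric.mem_ball, dist_eq_norm]
      have : z + (⟨a, b⟩ : ℂ) - z = ⟨a, b⟩ := by ring
      rw [this]
      calc ‖(⟨a, b⟩ : ℂ)‖ ≤ |a| + |b| := Complex.norm_le_abs_re_add_abs_im _
        _ < ε := by linarith
    have := shadow_subset (hb hmem)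
    simpa using this
  have e4 : |ε / 4| < ε / 2 := by rw [abs_of_pos (by positivity)]; linarith
  have e8 : |(0 : ℝ)| < ε / 2 := by simpa using hε
  have k1 := key 0 0 e8 e8
  have k2 := key (ε / 4) 0 e4 e8
  have k3 := key 0 (ε / 4) e8 e4
  have k4 := key (ε / 4) (ε / 4) e4 e4
  nlinarith [mul_pos hε hε]

theorem rhombus_roots : rootsOf rhombus = {1, -1, 2 * Complex.I, -(2 * Complex.I)} := by
  ext z
  change rhombus.eval z = 0 ↔ _
  have : rhombus.eval z = (z - 1) * (z + 1) * ((z - 2 * Complex.I) * (z + 2 * Complex.I)) := by
    simp [rhombus]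
    linear_combination (4 * z ^ 2 - 4) * Complex.I_sq
  rw [this]
  simp only [mul_eq_zero, Set.mem_insert_iff, Set.mem_singleton_iff]
  constructor
  · rintro ((h | h) | (h | h))
    · left; linear_combination h
    · right; left; linear_combination h
    · right; right; left; linear_combination h
    · right; right; right; linear_combination h
  · rintro (h | h | h | h)
    · left; left; rw [h]; ring
    · left; right; rw [h]; ring
    · right; left; rw [h]; ring
    · right; right; rw [h]; ring

/-- A linear functional strictly separating a point from the other roots keeps it out of their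
convex hull. -/
theorem not_mem_hull (a b c : ℝ) (z : ℂ) (s : Set ℂ) (hs : ∀ w ∈ s, a * w.re + b * w.im < c)
    (hz : c ≤ a * z.re + b * z.im) : z ∉ convexHull ℝ s := by
  intro h
  have hconv : Convex ℝ {w : ℂ | a * w.re + b * w.im < c} := by
    intro x hx y hy p q hp hq hpq
    simp only [Set.mem_ofPred_eq] at hx hy ⊢
    simp only [Complex.add_re, Complex.add_im, Complex.real_smul, Complex.mul_re, Complex.mul_im,
      Complex.ofReal_re, Complex.ofReal_im, zero_mul, sub_zero, add_zero]
    have hqp : q = 1 - p := by linarith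
    subst hqp
    rcases hp.eq_or_lt with hp | hp
    · rw [← hp]
      linarith
    · nlinarith
  have : z ∈ {w : ℂ | a * w.re + b * w.im < c} := convexHull_min hs hconv h
  simp only [Set.mem_ofPred_eq] at this
  linarith

theorem rhombus_convex : ConvexPosition rhombus := by
  constructor
  · rw [rhombus_roots, rhombus_natDegree]
    have h1 : (1 : ℂ) ≠ -1 := by
      intro h
      have := congrArg Complex.re h
      norm_num at this
    have h2 : (1 : ℂ) ≠ 2 * Complex.I := by
      intro h
      have := congrArg Complex.re h
      norm_num at this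
    have h3 : (1 : ℂ) ≠ -(2 * Complex.I) := by
      intro h
      have := congrArg Complex.re h
      norm_num at this
    have h4 : (-1 : ℂ) ≠ 2 * Complex.I := by
      intro h
      have := congrArg Complex.re h
      norm_num at this
    have h5 : (-1 : ℂ) ≠ -(2 * Complex.I) := by
      intro h
      have := congrArg Complex.re h
      norm_num at this
    have h6 : (2 * Complex.I : ℂ) ≠ -(2 * Complex.I) := by
      intro h
      have := congrArg Complex.im h
      norm_num at this
    rw [Set.ncard_insert_of_notMem (by simp [h1, h2, h3]),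
      Set.ncard_insert_of_notMem (by simp [h4, h5]), Set.ncard_pair h6]
  · rw [rhombus_roots]
    intro z hz
    rcases hz with rfl | rfl | rfl | rfl
    · apply not_mem_hull 1 0 1
      · rintro w ⟨hw, hw'⟩
        rcases hw with rfl | rfl | rfl | rfl
        · simp at hw'
        all_goals simp
      · simp
    · apply not_mem_hull (-1) 0 1
      · rintro w ⟨hw, hw'⟩
        rcases hw with rfl | rfl | rfl | rfl
        · norm_num
        · simp at hw'
        all_goals simp
      · simp
    · apply not_mem_hull 0 1 2
      · rintro w ⟨hw, hw'⟩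
        rcases hw with rfl | rfl | rfl | rfl
        · simp
        · simp
        · simp at hw'
        · norm_num
      · simp
    · apply not_mem_hull 0 (-1) 2
      · rintro w ⟨hw, hw'⟩
        rcases hw with rfl | rfl | rfl | rfl
        · simp
        · simp
        · norm_num
        · simp at hw'
      · simp

theorem rhombus_not_regular : ¬ RegularPolygon rhombus := by
  rintro ⟨c, r, hr, h⟩
  -- all the roots have the same distance from the centre `c`
  have hdist : ∀ z ∈ rootsOf rhombus, ‖z - c‖ = ‖r‖ := by
    intro z hz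
    rw [h] at hz
    obtain ⟨k, rfl⟩ := hz
    rw [add_sub_cancel_left, norm_mul]
    have : (2 * Real.pi * Complex.I * k / rhombus.natDegree : ℂ) =
        ((2 * Real.pi * k / rhombus.natDegree : ℝ) : ℂ) * Complex.I := by
      push_cast
      ring
    rw [this, Complex.norm_exp_ofReal_mul_I, mul_one]
  rw [rhombus_roots] at hdist
  have d1 := hdist 1 (by simp)
  have d2 := hdist (-1) (by simp)
  have d3 := hdist (2 * Complex.I) (by simp)
  have d4 := hdist (-(2 * Complex.I)) (by simp)
  have sq : ∀ z : ℂ, ‖z - c‖ = ‖r‖ →
      (z.re - c.re) ^ 2 + (z.im - c.im) ^ 2 = ‖r‖ ^ 2 := by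
    intro z hz
    rw [← hz, ← Complex.normSq_eq_norm_sq, Complex.normSq_apply]
    simp
    ring
  have s1 := sq _ d1
  have s2 := sq _ d2
  have s3 := sq _ d3
  have s4 := sq _ d4
  simp at s1 s2 s3 s4
  nlinarith

theorem result :
    ∃ P : ℂ[X], 3 ≤ P.natDegree ∧ ConvexPosition P ∧ ¬ RegularPolygon P ∧
      interior (shadow P) = ∅ ∧
      ¬ ∃ U : Set ℂ, IsOpen U ∧ IsConnected U ∧ closure U = shadow P := by
  refine ⟨rhombus, by rw [rhombus_natDegree]; norm_num, rhombus_convex, rhombus_not_regular,
    interior_shadow, ?_⟩
  rintro ⟨U, hU, hc, hcl⟩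
  obtain ⟨z, hz⟩ := hc.nonempty
  have : z ∈ interior (shadow rhombus) := by
    rw [← hcl]
    exact interior_mono subset_closure (hU.interior_eq.symm ▸ hz)
  rw [interior_shadow] at this
  exact this

end Pool.Agent.Results.MP_424c76_an.RhombusShadow
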